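import Pool.Agent.X164.Steiner

set_option autoImplicit false

namespace Pool.Agent.Results.MP_c699aa_gt.FullConvergence

open Set MeasureTheory Metric Module Filter
open scoped MeasureTheory Topology
open Pool.Agent.X164.Steiner

/-- Iterated Steiner symmetrizations of `A` in the directions `u 0, u 1, u 2, ...`. -/
noncomputable def iter {n : ℕ} (u : ℕ → E n) (A : Set (E n)) : ℕ → Set (E n)
  | 0 => A
  | i + 1 => steiner (u i) (iter u A i)

lemma iter_compact {n : ℕ} (u : ℕ → E n) (hu : ∀ i, ‖u i‖ = 1) (A : Set (E n))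
    (hA : IsCompact A) (i : ℕ) : IsCompact (iter u A i) := by
  induction i with
  | zero => exact hA
  | succ i ih => exact steiner_compact (u i) (hu i) ih

lemma iter_volume {n : ℕ} (u : ℕ → E n) (hu : ∀ i, ‖u i‖ = 1) (A : Set (E n))
    (hA : IsCompact A) (i : ℕ) : volume (iter u A i) = volume A := by
  induction i with
  | zero => rfl
  | succ i ih =>
    rw [← ih]
    exact steiner_volume (u i) (hu i) (iter_compact u hu A hA i)

lemma iter_ball {n : ℕ} (u : ℕ → E n) (hu : ∀ i, ‖u i‖ = 1) (A : Set (E n))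
    (R : ℝ) (i k : ℕ) (h : iter u A i ⊆ closedBall 0 R) : iter u A (i + k) ⊆ closedBall 0 R := by
  induction k with
  | zero => exact h
  | succ k ih =>
    exact (steiner_mono (u (i + k)) (hu _) ih isBounded_closedBall).trans
      (steiner_ball (u (i + k)) (hu _) R)

lemma vol_ball {n : ℕ} (x : E n) {R : ℝ} (hR : 0 ≤ R) :
    volume (closedBall x R) = ENNReal.ofReal (R ^ n) * volume (ball (0 : E n) 1) := by
  rw [Measure.addHaar_closedBall _ _ hR, finrank_euclideanSpace, Fintype.card_fin]

lemma fill {n : ℕ} {r s l : ℝ} (hr : 0 < r) (hs : 0 < s) (hsr : s ≤ r) (hl : 0 < l)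
    (hlt : (r + l) ^ n < r ^ n + s ^ n) {B : Set (E n)}
    (hBsub : B ⊆ closedBall 0 (r + l)) (hBv : volume B = volume (closedBall (0 : E n) r))
    (x : E n) (hx : x ∈ closedBall (0 : E n) r) : ∃ y ∈ B, dist x y ≤ 2 * s := by
  by_contra hcon
  push Not at hcon
  set z : E n := (1 - s / r) • x with hz
  have hxr : ‖x‖ ≤ r := by simpa using hx
  have hsr1 : s / r ≤ 1 := (div_le_one hr).mpr hsr
  have hzn : ‖z‖ ≤ r - s := by
    rw [hz, norm_smul, Real.norm_eq_abs, abs_of_nonneg (by linarith)]
    calc (1 - s / r) * ‖x‖ ≤ (1 - s / r) * r := by gcongr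
      _ = r - s := by field_simp
  have hxz : dist x z ≤ s := by
    rw [dist_eq_norm]
    have h1 : x - z = (s / r) • x := by rw [hz, sub_smul, one_smul]; abel
    rw [h1, norm_smul, Real.norm_eq_abs, abs_of_pos (by positivity)]
    calc s / r * ‖x‖ ≤ s / r * r := by gcongr
      _ = s := by field_simp
  have hdisj : Disjoint B (closedBall z s) := by
    rw [Set.disjoint_left]
    intro y hy hyz
    have h1 := hcon y hy
    have h2 : dist x y ≤ 2 * s := by
      calc dist x y ≤ dist x z + dist z y := dist_triangle _ _ _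
        _ ≤ s + s := by
          apply add_le_add hxz
          rw [dist_comm]; exact hyz
        _ = 2 * s := by ring
    linarith
  have hsub : B ∪ closedBall z s ⊆ closedBall 0 (r + l) := by
    apply union_subset hBsub
    intro y hy
    rw [mem_closedBall_zero_iff]
    have h1 : ‖y - z‖ ≤ s := by rw [← dist_eq_norm]; exact hy
    calc ‖y‖ = ‖z + (y - z)‖ := by rw [add_sub_cancel]
      _ ≤ ‖z‖ + ‖y - z‖ := norm_add_le _ _
      _ ≤ r + l := by linarith
  have h1 := measure_mono (μ := volume) hsub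
  rw [measure_union hdisj measurableSet_closedBall, hBv, vol_ball _ hr.le, vol_ball _ hs.le,
    vol_ball _ (by linarith : (0 : ℝ) ≤ r + l), ← add_mul,
    ← ENNReal.ofReal_add (by positivity) (by positivity)] at h1
  have hb0 : volume (ball (0 : E n) 1) ≠ 0 := (measure_ball_pos volume _ one_pos).ne'
  have hbt : volume (ball (0 : E n) 1) ≠ ⊤ := measure_ball_lt_top.ne
  rw [ENNReal.mul_le_mul_iff_left hb0 hbt] at h1
  have h2 := (ENNReal.ofReal_le_ofReal_iff (by positivity)).mp h1
  linarith

/-- If a subsequence of the iterated Steiner symmetrizations of a compact set with nonempty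
interior converges to the centred ball of the same volume in Hausdorff distance, then so does
the whole sequence. -/
theorem result (n : ℕ) (hn : 2 ≤ n) (A : Set (E n)) (hA : IsCompact A)
    (hint : (interior A).Nonempty) (u : ℕ → E n) (hu : ∀ i, ‖u i‖ = 1)
    (r : ℝ) (hr : 0 ≤ r) (hvol : volume (closedBall (0 : E n) r) = volume A)
    (φ : ℕ → ℕ) (_hφ : StrictMono φ)
    (h : Tendsto (fun j => hausdorffDist (iter u A (φ j)) (closedBall 0 r)) atTop (𝓝 0)) :
    Tendsto (fun i => hausdorffDist (iter u A i) (closedBall 0 r)) atTop (𝓝 0) := by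
  have hApos : 0 < volume A :=
    lt_of_lt_of_le (isOpen_interior.measure_pos volume hint) (measure_mono interior_subset)
  have hr0 : 0 < r := by
    rcases eq_or_lt_of_le hr with h0 | h0
    · exfalso
      rw [← h0, vol_ball _ le_rfl, zero_pow (by omega), ENNReal.ofReal_zero, zero_mul] at hvol
      rw [← hvol] at hApos
      exact lt_irrefl _ hApos
    · exact h0
  have hne : ∀ i, (iter u A i).Nonempty := by
    intro i
    apply nonempty_of_measure_ne_zero (μ := volume)
    rw [iter_volume u hu A hA]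
    exact hApos.ne'
  rw [Metric.tendsto_atTop]
  intro ε hε
  set s := min (ε / 4) r with hs
  have hs0 : 0 < s := lt_min (by positivity) hr0
  -- choice of l
  have hl : ∃ l : ℝ, 0 < l ∧ l ≤ ε / 2 ∧ (r + l) ^ n < r ^ n + s ^ n := by
    have hc : Tendsto (fun l : ℝ => (r + l) ^ n) (𝓝[>] 0) (𝓝 ((r + 0) ^ n)) :=
      ((by fun_prop : Continuous fun l : ℝ => (r + l) ^ n).tendsto 0).mono_left nhdsWithin_le_nhds
    rw [add_zero] at hc
    have h1 := hc.eventually_lt_const (show r ^ n < r ^ n + s ^ n by
      have := pow_pos hs0 n; linarith)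
    have h2 : ∀ᶠ l : ℝ in 𝓝[>] 0, l ≤ ε / 2 := by
      have : Tendsto (fun l : ℝ => l) (𝓝[>] 0) (𝓝 0) := tendsto_id.mono_left nhdsWithin_le_nhds
      exact (this.eventually_lt_const (by positivity : (0 : ℝ) < ε / 2)).mono fun l hl => hl.le
    obtain ⟨l, ⟨h3, h4⟩, h5⟩ := ((h1.and h2).and self_mem_nhdsWithin).exists
    exact ⟨l, h5, h4, h3⟩
  obtain ⟨l, hl0, hle, hlt⟩ := hl
  obtain ⟨j, hj⟩ := (h.eventually_lt_const hl0).exists
  have hball : iter u A (φ j) ⊆ closedBall 0 (r + l) := by
    intro x hx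
    have h1 : infDist x (closedBall (0 : E n) r) < l := by
      refine lt_of_le_of_lt (infDist_le_hausdorffDist_of_mem hx ?_) hj
      exact hausdorffEDist_ne_top_of_nonempty_of_bounded (hne _)
        ⟨0, mem_closedBall_self hr⟩ (iter_compact u hu A hA _).isBounded isBounded_closedBall
    obtain ⟨y, hy, hxy⟩ := (infDist_lt_iff ⟨0, mem_closedBall_self hr⟩).mp h1
    rw [mem_closedBall_zero_iff] at hy ⊢
    rw [dist_eq_norm] at hxy
    calc ‖x‖ = ‖y + (x - y)‖ := by rw [add_sub_cancel]
      _ ≤ ‖y‖ + ‖x - y‖ := norm_add_le _ _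
      _ ≤ r + l := by linarith
  refine ⟨φ j, fun i hi => ?_⟩
  obtain ⟨k, rfl⟩ := Nat.exists_eq_add_of_le hi
  have hsub := iter_ball u hu A (r + l) (φ j) k hball
  rw [Real.dist_eq, sub_zero, abs_of_nonneg hausdorffDist_nonneg]
  have hbound : hausdorffDist (iter u A (φ j + k)) (closedBall 0 r) ≤ ε / 2 := by
    apply hausdorffDist_le_of_mem_dist (by positivity)
    · intro x hx
      have hx1 : ‖x‖ ≤ r + l := by simpa using hsub hx
      by_cases hxr : ‖x‖ ≤ r
      · exact ⟨x, by simpa using hxr, by rw [dist_self]; positivity⟩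
      · push Not at hxr
        have hx0 : 0 < ‖x‖ := lt_trans hr0 hxr
        refine ⟨(r / ‖x‖) • x, ?_, ?_⟩
        · rw [mem_closedBall_zero_iff, norm_smul, Real.norm_eq_abs, abs_of_pos (by positivity),
            div_mul_cancel₀ _ hx0.ne']
        · rw [dist_eq_norm]
          have h1 : x - (r / ‖x‖) • x = (1 - r / ‖x‖) • x := by rw [sub_smul, one_smul]
          rw [h1, norm_smul, Real.norm_eq_abs, abs_of_nonneg (by
            rw [sub_nonneg, div_le_one hx0]; exact hxr.le)]
          have h2 : (1 - r / ‖x‖) * ‖x‖ = ‖x‖ - r := by field_simp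
          rw [h2]; linarith
    · intro x hx
      obtain ⟨y, hy, hxy⟩ := fill hr0 hs0 (min_le_right _ _) hl0 hlt hsub
        ((iter_volume u hu A hA _).trans hvol.symm) x hx
      refine ⟨y, hy, hxy.trans ?_⟩
      have := min_le_left (ε / 4) r
      linarith
  linarith

end Pool.Agent.Results.MP_c699aa_gt.FullConvergence
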